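import Mathlib

/-!
# Hadamard matrices, Hadamard equivalence and the number of classes
-/

set_option autoImplicit false

open Matrix

namespace Pool.Agent.Lib.MP_ced6ff_co

/-- `H` is a Hadamard matrix of order `n`: entries `±1` and `H * Hᵀ = n • 1`. -/
def IsHad {n : ℕ} (H : Matrix (Fin n) (Fin n) ℤ) : Prop :=
  (∀ i j, H i j = 1 ∨ H i j = -1) ∧ H * Hᵀ = (n : ℤ) • (1 : Matrix (Fin n) (Fin n) ℤ)

/-- A monomial matrix: entries in `{0, 1, -1}`, exactly one nonzero entry in every row and in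
every column. -/
def IsMonomial {n : ℕ} (U : Matrix (Fin n) (Fin n) ℤ) : Prop :=
  (∀ i j, U i j = 0 ∨ U i j = 1 ∨ U i j = -1) ∧
    (∀ i, ∃! j, U i j ≠ 0) ∧ (∀ j, ∃! i, U i j ≠ 0)

/-- Hadamard equivalence: `H' = U * H * Vᵀ` with `U`, `V` monomial. -/
def HadEquiv {n : ℕ} (H H' : Matrix (Fin n) (Fin n) ℤ) : Prop :=
  ∃ U V : Matrix (Fin n) (Fin n) ℤ, IsMonomial U ∧ IsMonomial V ∧ H' = U * H * Vᵀ

/-- `h n` is the number of equivalence classes of Hadamard matrices of order `n`. -/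
noncomputable def h (n : ℕ) : ℕ :=
  Nat.card (Quot fun H H' : {H : Matrix (Fin n) (Fin n) ℤ // IsHad H} => HadEquiv H.1 H'.1)

end Pool.Agent.Lib.MP_ced6ff_co
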