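import Pool.Agent.Lib.MP_ced6ff_co.Defs

/-!
# The number of Hadamard equivalence classes in orders `n` and `2n`: the proof

We prove `h n ≤ h (2 * n)` for every `n`.  The proof shows that Sylvester doubling
`H ↦ [[H, H], [H, -H]]` is injective on equivalence classes.  It is a Lovász-style counting
argument: the signed counts `scnt E M` of a test pattern `E` in a matrix `M` are invariant under
Hadamard equivalence, factor over Kronecker products up to the positive factor `cnt E syl`, and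
determine a Hadamard matrix up to equivalence by expanding products.
-/

set_option autoImplicit false

open Matrix
open scoped Kronecker

namespace Pool.Agent.Lib.MP_ced6ff_co

/-! ### Signed permutations -/

/-- Equivalence by signed permutations of rows and columns, over arbitrary index types. -/
def SP {ι κ : Type} (H H' : Matrix ι κ ℤ) : Prop :=
  ∃ (σ : Equiv.Perm ι) (τ : Equiv.Perm κ) (s : ι → ℤˣ) (t : κ → ℤˣ),
    ∀ i j, H' i j = (s i : ℤ) * (t j : ℤ) * H (σ i) (τ j)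

theorem SP.refl {ι κ : Type} (H : Matrix ι κ ℤ) : SP H H :=
  ⟨Equiv.refl _, Equiv.refl _, fun _ => 1, fun _ => 1, fun i j => by simp⟩

theorem SP.symm {ι κ : Type} {H H' : Matrix ι κ ℤ} (hh : SP H H') : SP H' H := by
  obtain ⟨σ, τ, s, t, hst⟩ := hh
  refine ⟨σ.symm, τ.symm, fun i => s (σ.symm i), fun j => t (τ.symm j), fun i j => ?_⟩
  rw [hst]
  have h1 : ((s (σ.symm i) : ℤˣ) : ℤ) * (s (σ.symm i) : ℤ) = 1 := by
    rcases Int.units_eq_one_or (s (σ.symm i)) with h | h <;> simp [h]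
  have h2 : ((t (τ.symm j) : ℤˣ) : ℤ) * (t (τ.symm j) : ℤ) = 1 := by
    rcases Int.units_eq_one_or (t (τ.symm j)) with h | h <;> simp [h]
  simp only [Equiv.apply_symm_apply]
  linear_combination (- (H i j)) * h1 - (H i j) * ((s (σ.symm i) : ℤ) * (s (σ.symm i) : ℤ)) * h2

theorem SP.trans {ι κ : Type} {H H' H'' : Matrix ι κ ℤ} (h1 : SP H H') (h2 : SP H' H'') :
    SP H H'' := by
  obtain ⟨σ, τ, s, t, hst⟩ := h1
  obtain ⟨σ', τ', s', t', hst'⟩ := h2
  refine ⟨σ'.trans σ, τ'.trans τ, fun i => s' i * s (σ' i), fun j => t' j * t (τ' j),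
    fun i j => ?_⟩
  rw [hst', hst]
  simp only [Units.val_mul, Equiv.trans_apply]
  ring

theorem monomial_of_signedPerm {n : ℕ} (σ : Equiv.Perm (Fin n)) (s : Fin n → ℤˣ) :
    IsMonomial (fun i k => if k = σ i then (s i : ℤ) else 0) := by
  refine ⟨fun i j => ?_, fun i => ⟨σ i, ?_, ?_⟩, fun j => ⟨σ.symm j, ?_, ?_⟩⟩
  · by_cases hj : j = σ i
    · rcases Int.units_eq_one_or (s i) with h | h <;> simp [hj, h]
    · simp [hj]
  · simp
  · intro y hy
    by_contra hne
    simp [hne] at hy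
  · simp
  · intro y hy
    by_contra hne
    apply hy
    have : j ≠ σ y := fun hc => hne (by rw [hc]; simp)
    simp [this]

theorem signedPerm_of_monomial {n : ℕ} {U : Matrix (Fin n) (Fin n) ℤ} (hU : IsMonomial U) :
    ∃ (σ : Equiv.Perm (Fin n)) (s : Fin n → ℤˣ),
      ∀ i k, U i k = if k = σ i then (s i : ℤ) else 0 := by
  obtain ⟨h0, hr, hc⟩ := hU
  choose f hf hf' using hr
  have hinj : Function.Injective f := by
    intro i i' hii
    obtain ⟨y, -, hy⟩ := hc (f i)
    have e1 := hy i (hf i)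
    have e2 := hy i' (by rw [hii]; exact hf i')
    rw [e1, e2]
  have hbij : Function.Bijective f := Finite.injective_iff_bijective.mp hinj
  have hs : ∀ i, ∃ u : ℤˣ, U i (f i) = (u : ℤ) := by
    intro i
    rcases h0 i (f i) with h | h | h
    · exact absurd h (hf i)
    · exact ⟨1, by simpa using h⟩
    · exact ⟨-1, by simpa using h⟩
  choose s hs using hs
  refine ⟨Equiv.ofBijective f hbij, s, fun i k => ?_⟩
  by_cases hk : k = f i
  · simp [hk, hs i]
  · have : U i k = 0 := by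
      by_contra hne
      exact hk (hf' i k hne)
    simp [hk, this]

theorem mul_signedPerm {n : ℕ} (H : Matrix (Fin n) (Fin n) ℤ) (σ τ : Equiv.Perm (Fin n))
    (s t : Fin n → ℤˣ) (U V : Matrix (Fin n) (Fin n) ℤ)
    (hU : ∀ i k, U i k = if k = σ i then (s i : ℤ) else 0)
    (hV : ∀ i k, V i k = if k = τ i then (t i : ℤ) else 0) (i j : Fin n) :
    (U * H * Vᵀ) i j = (s i : ℤ) * (t j : ℤ) * H (σ i) (τ j) := by
  simp only [Matrix.mul_apply, Matrix.transpose_apply, hU, hV, ite_mul, zero_mul, mul_ite,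
    mul_zero, Finset.sum_ite_eq', Finset.mem_univ, if_true]
  ring

theorem hadEquiv_iff_SP {n : ℕ} (H H' : Matrix (Fin n) (Fin n) ℤ) :
    HadEquiv H H' ↔ SP H H' := by
  constructor
  · rintro ⟨U, V, hU, hV, rfl⟩
    obtain ⟨σ, s, hs⟩ := signedPerm_of_monomial hU
    obtain ⟨τ, t, ht⟩ := signedPerm_of_monomial hV
    exact ⟨σ, τ, s, t, fun i j => mul_signedPerm H σ τ s t U V hs ht i j⟩
  · rintro ⟨σ, τ, s, t, hst⟩
    refine ⟨_, _, monomial_of_signedPerm σ s, monomial_of_signedPerm τ t, ?_⟩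
    ext i j
    rw [hst, mul_signedPerm H σ τ s t _ _ (fun _ _ => rfl) (fun _ _ => rfl)]

/-! ### Counting -/

section counting

variable {α β : Type} [Fintype α] [Fintype β] [DecidableEq α] [DecidableEq β]

/-- The unsigned count attached to a test pattern `E`. -/
def cnt (E : Finset (α × β)) {ι κ : Type} [Fintype ι] [Fintype κ] (M : Matrix ι κ ℤ) : ℤ :=
  ∑ φ : α → ι, ∑ ψ : β → κ, ∏ p ∈ E, M (φ p.1) (ψ p.2)

/-- The sign sum attached to a test pattern `E`. -/
def sgn (E : Finset (α × β)) : ℤ :=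
  ∑ s : α → ℤˣ, ∑ t : β → ℤˣ, ∏ p ∈ E, ((s p.1 : ℤ) * (t p.2 : ℤ))

/-- The signed count attached to a test pattern `E`. -/
def scnt (E : Finset (α × β)) {ι κ : Type} [Fintype ι] [Fintype κ] (M : Matrix ι κ ℤ) : ℤ :=
  ∑ φ : α → ι, ∑ ψ : β → κ, ∑ s : α → ℤˣ, ∑ t : β → ℤˣ,
    ∏ p ∈ E, ((s p.1 : ℤ) * (t p.2 : ℤ) * M (φ p.1) (ψ p.2))

theorem scnt_eq (E : Finset (α × β)) {ι κ : Type} [Fintype ι] [Fintype κ] (M : Matrix ι κ ℤ) :
    scnt E M = sgn E * cnt E M := by
  unfold scnt sgn cnt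
  simp only [Finset.prod_mul_distrib, ← Finset.sum_mul]
  rw [Finset.mul_sum]
  refine Finset.sum_congr rfl fun φ _ => ?_
  rw [Finset.mul_sum]

theorem cnt_kronecker (E : Finset (α × β)) {ι κ ι' κ' : Type} [Fintype ι] [Fintype κ]
    [Fintype ι'] [Fintype κ'] (M : Matrix ι κ ℤ) (M' : Matrix ι' κ' ℤ) :
    cnt E (M ⊗ₖ M') = cnt E M * cnt E M' := by
  unfold cnt
  have e1 : ∀ f : (α → ι × ι') → ℤ, ∑ φ, f φ =
      ∑ φ₁ : α → ι, ∑ φ₂ : α → ι', f (fun a => (φ₁ a, φ₂ a)) := by
    intro f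
    rw [← Fintype.sum_prod_type']
    exact Fintype.sum_equiv (Equiv.arrowProdEquivProdArrow α (fun _ => ι) (fun _ => ι')) _ _
      (fun φ => rfl)
  have e2 : ∀ f : (β → κ × κ') → ℤ, ∑ φ, f φ =
      ∑ φ₁ : β → κ, ∑ φ₂ : β → κ', f (fun a => (φ₁ a, φ₂ a)) := by
    intro f
    rw [← Fintype.sum_prod_type']
    exact Fintype.sum_equiv (Equiv.arrowProdEquivProdArrow β (fun _ => κ) (fun _ => κ')) _ _
      (fun φ => rfl)
  rw [e1]
  simp only [e2, Matrix.kroneckerMap_apply, Finset.prod_mul_distrib]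
  rw [Finset.sum_mul_sum]
  refine Finset.sum_congr rfl fun φ₁ _ => Finset.sum_congr rfl fun φ₂ _ => ?_
  rw [Finset.sum_mul_sum]

theorem scnt_invariant (E : Finset (α × β)) {ι κ : Type} [Fintype ι] [Fintype κ]
    {M M' : Matrix ι κ ℤ} (hM : SP M M') : scnt E M' = scnt E M := by
  obtain ⟨σ, τ, s₀, t₀, hst⟩ := hM
  unfold scnt
  refine Fintype.sum_equiv (Equiv.arrowCongr (Equiv.refl α) σ) _ _ fun φ => ?_
  refine Fintype.sum_equiv (Equiv.arrowCongr (Equiv.refl β) τ) _ _ fun ψ => ?_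
  refine Fintype.sum_equiv (Equiv.mulRight (fun a => s₀ (φ a))) _ _ fun s => ?_
  refine Fintype.sum_equiv (Equiv.mulRight (fun b => t₀ (ψ b))) _ _ fun t => ?_
  refine Finset.prod_congr rfl fun p _ => ?_
  rw [hst]
  simp only [Equiv.coe_mulRight, Pi.mul_apply, Units.val_mul, Equiv.arrowCongr_apply,
    Equiv.refl_symm, Equiv.coe_refl, Function.comp_apply, id_eq]
  ring

/-- The Sylvester matrix of order two. -/
def syl : Matrix (Fin 2) (Fin 2) ℤ := !![1, 1; 1, -1]

theorem cnt_syl_pos (E : Finset (α × β)) : 0 < cnt E syl := by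
  unfold cnt
  have key : ∀ φ : α → Fin 2, ∑ ψ : β → Fin 2, ∏ p ∈ E, syl (φ p.1) (ψ p.2) =
      ∏ b : β, ∑ y : Fin 2, ∏ a : α, (if (a, b) ∈ E then syl (φ a) y else 1) := by
    intro φ
    rw [Finset.prod_univ_sum, Fintype.piFinset_univ]
    refine Finset.sum_congr rfl fun ψ _ => ?_
    rw [← Finset.prod_product_right']
    rw [Finset.univ_product_univ]
    rw [← Finset.prod_filter]
    refine Finset.prod_congr ?_ fun _ _ => rfl
    ext p
    simp
  have hterm : ∀ φ : α → Fin 2, ∀ b : β,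
      0 ≤ ∑ y : Fin 2, ∏ a : α, (if (a, b) ∈ E then syl (φ a) y else 1) := by
    intro φ b
    rw [Fin.sum_univ_two]
    have h0 : ∏ a : α, (if (a, b) ∈ E then syl (φ a) 0 else 1) = 1 := by
      refine Finset.prod_eq_one fun a _ => ?_
      have : ∀ x : Fin 2, syl x 0 = 1 := by decide
      simp [this]
    have h1 : ∀ S : Finset α, -1 ≤ ∏ a ∈ S, (if (a, b) ∈ E then syl (φ a) 1 else 1) ∧
        ∏ a ∈ S, (if (a, b) ∈ E then syl (φ a) 1 else 1) ≤ 1 := by
      intro S
      have : ∏ a ∈ S, (if (a, b) ∈ E then syl (φ a) 1 else 1) = 1 ∨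
          ∏ a ∈ S, (if (a, b) ∈ E then syl (φ a) 1 else 1) = -1 := by
        induction S using Finset.induction_on with
        | empty => left; simp
        | insert a S ha ih =>
          rw [Finset.prod_insert ha]
          have hx : ∀ x : Fin 2, syl x 1 = 1 ∨ syl x 1 = -1 := by decide
          have hc : (if (a, b) ∈ E then syl (φ a) 1 else 1) = 1 ∨
              (if (a, b) ∈ E then syl (φ a) 1 else 1) = -1 := by
            split_ifs
            · exact hx _
            · left; rfl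
          rcases hc with hc | hc <;> rcases ih with ih | ih <;> simp [hc, ih]
      rcases this with h | h <;> rw [h] <;> norm_num
    rw [h0]
    linarith [(h1 Finset.univ).1]
  refine Finset.sum_pos' (fun φ _ => ?_) ⟨fun _ => 0, Finset.mem_univ _, ?_⟩
  · rw [key]
    exact Finset.prod_nonneg fun b _ => hterm φ b
  · have hk := key (fun _ => 0)
    beta_reduce at hk ⊢
    rw [hk]
    refine Finset.prod_pos fun b _ => ?_
    have hx : ∀ y : Fin 2, syl 0 y = 1 := by decide
    simp [hx]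

omit [DecidableEq α] [DecidableEq β] in
/-- The expansion of a product of factors `1 + X p * Y p`. -/
theorem prod_expand (X : Matrix α β ℤ) (Y : α → β → ℤ) :
    ∏ p : α × β, (1 + X p.1 p.2 * Y p.1 p.2) =
      ∑ E : Finset (α × β), (∏ p ∈ E, X p.1 p.2) * ∏ p ∈ E, Y p.1 p.2 := by
  rw [Finset.prod_one_add]
  simp [Finset.prod_mul_distrib]

theorem scnt_eq_sum (E : Finset (α × β)) {ι κ : Type} [Fintype ι] [Fintype κ]
    (M : Matrix ι κ ℤ) :
    scnt E M = ∑ x : (α → ι) × (β → κ) × (α → ℤˣ) × (β → ℤˣ),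
      ∏ p ∈ E, ((x.2.2.1 p.1 : ℤ) * (x.2.2.2 p.2 : ℤ) * M (x.1 p.1) (x.2.1 p.2)) := by
  unfold scnt
  simp only [Fintype.sum_prod_type]

theorem sum_expand {ι κ : Type} [Fintype ι] [Fintype κ] (X : Matrix α β ℤ)
    (M : Matrix ι κ ℤ) :
    ∑ x : (α → ι) × (β → κ) × (α → ℤˣ) × (β → ℤˣ),
      ∏ p : α × β, (1 + X p.1 p.2 *
        ((x.2.2.1 p.1 : ℤ) * (x.2.2.2 p.2 : ℤ) * M (x.1 p.1) (x.2.1 p.2))) =
    ∑ E : Finset (α × β), (∏ p ∈ E, X p.1 p.2) * scnt E M := by
  simp only [scnt_eq_sum, Finset.mul_sum]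
  rw [Finset.sum_comm]
  refine Finset.sum_congr rfl fun x _ => ?_
  exact prod_expand X (fun a b => (x.2.2.1 a : ℤ) * (x.2.2.2 b : ℤ) * M (x.1 a) (x.2.1 b))

theorem exists_map_of_scnt_eq {ι κ : Type} [Fintype ι] [Fintype κ]
    (X : Matrix α β ℤ) (M : Matrix ι κ ℤ)
    (hX : ∀ i j, X i j = 1 ∨ X i j = -1) (hM : ∀ i j, M i j = 1 ∨ M i j = -1)
    (hE : ∀ E : Finset (α × β), scnt E X = scnt E M) :
    ∃ (φ : α → ι) (ψ : β → κ) (s : α → ℤˣ) (t : β → ℤˣ),
      ∀ a b, X a b = (s a : ℤ) * (t b : ℤ) * M (φ a) (ψ b) := by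
  have h1 : 0 < ∑ x : (α → α) × (β → β) × (α → ℤˣ) × (β → ℤˣ),
      ∏ p : α × β, (1 + X p.1 p.2 *
        ((x.2.2.1 p.1 : ℤ) * (x.2.2.2 p.2 : ℤ) * X (x.1 p.1) (x.2.1 p.2))) := by
    refine Finset.sum_pos' (fun x _ => Finset.prod_nonneg fun p _ => ?_)
      ⟨(id, id, 1, 1), Finset.mem_univ _, Finset.prod_pos fun p _ => ?_⟩
    · rcases hX p.1 p.2 with h | h <;> rcases hX (x.1 p.1) (x.2.1 p.2) with h' | h' <;>
        rcases Int.units_eq_one_or (x.2.2.1 p.1) with h'' | h'' <;>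
        rcases Int.units_eq_one_or (x.2.2.2 p.2) with h''' | h''' <;>
        simp [h, h', h'', h''']
    · rcases hX p.1 p.2 with h | h <;> simp [h]
  rw [sum_expand] at h1
  simp only [hE] at h1
  rw [← sum_expand] at h1
  obtain ⟨x, -, hx⟩ := Finset.exists_ne_zero_of_sum_ne_zero h1.ne'
  refine ⟨x.1, x.2.1, x.2.2.1, x.2.2.2, fun a b => ?_⟩
  have hne := (Finset.prod_ne_zero_iff.mp hx) (a, b) (Finset.mem_univ _)
  rcases hX a b with h | h <;> rcases hM (x.1 a) (x.2.1 b) with h' | h' <;>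
    rcases Int.units_eq_one_or (x.2.2.1 a) with h'' | h'' <;>
    rcases Int.units_eq_one_or (x.2.2.2 b) with h''' | h''' <;>
    simp [h, h', h'', h'''] at hne ⊢

end counting

/-! ### Cancellation of the Sylvester factor -/

theorem isHad_iff {n : ℕ} (H : Matrix (Fin n) (Fin n) ℤ) : IsHad H ↔ H.IsHadamard := by
  rcases Nat.eq_zero_or_pos n with rfl | hn
  · constructor
    · intro _
      refine ⟨fun i => i.elim0, ?_, ?_⟩ <;> ext i <;> exact i.elim0
    · intro _
      refine ⟨fun i => i.elim0, ?_⟩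
      ext i
      exact i.elim0
  · have hreg : IsRegular ((Fintype.card (Fin n) : ℕ) : ℤ) := by
      have : ((Fintype.card (Fin n) : ℕ) : ℤ) ≠ 0 := by
        simp only [Fintype.card_fin]
        exact_mod_cast hn.ne'
      exact IsRegular.of_ne_zero this
    rw [Matrix.isHadamard_iff_mul_conjTranspose hreg]
    unfold IsHad
    simp only [Unitary.mem_iff_eq_one_or_eq_neg_one, Fintype.card_fin,
      Matrix.conjTranspose_eq_transpose_of_trivial]

theorem IsHad.rows_orth {n : ℕ} {H : Matrix (Fin n) (Fin n) ℤ} (hH : IsHad H)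
    {i j : Fin n} (hij : i ≠ j) : ∑ k, H i k * H j k = 0 := by
  have := congr_fun (congr_fun hH.2 i) j
  simpa [Matrix.mul_apply, hij] using this

theorem IsHad.cols_orth {n : ℕ} {H : Matrix (Fin n) (Fin n) ℤ} (hH : IsHad H)
    {i j : Fin n} (hij : i ≠ j) : ∑ k, H k i * H k j = 0 := by
  have := congr_fun (congr_fun ((isHad_iff H).mp hH).conjTranspose_mul i) j
  simpa [Matrix.mul_apply, hij] using this

theorem sq_eq_one_of_pm {x : ℤ} (hx : x = 1 ∨ x = -1) : x * x = 1 := by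
  rcases hx with h | h <;> simp [h]

theorem units_sq (u : ℤˣ) : (u : ℤ) * (u : ℤ) = 1 := by
  rcases Int.units_eq_one_or u with h | h <;> simp [h]

theorem SP_of_SP_kronecker {n : ℕ} (X M : Matrix (Fin n) (Fin n) ℤ) (hX : IsHad X)
    (hM : IsHad M) (hXM : SP (syl ⊗ₖ X) (syl ⊗ₖ M)) : SP M X := by
  have hE : ∀ E : Finset (Fin n × Fin n), scnt E X = scnt E M := by
    intro E
    have h := scnt_invariant E hXM
    rw [scnt_eq, scnt_eq, cnt_kronecker, cnt_kronecker] at h
    rw [scnt_eq, scnt_eq]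
    have hpos := cnt_syl_pos E
    have : cnt E syl * (sgn E * cnt E X) = cnt E syl * (sgn E * cnt E M) := by
      linear_combination -h
    exact mul_left_cancel₀ hpos.ne' this
  obtain ⟨φ, ψ, s, t, hst⟩ := exists_map_of_scnt_eq X M hX.1 hM.1 hE
  have hφ : Function.Injective φ := by
    intro a a' haa
    by_contra hne
    have h0 := hX.rows_orth hne
    have h1 : ∀ k, X a k * X a' k = (s a : ℤ) * (s a' : ℤ) := by
      intro k
      rw [hst, hst, haa]
      have e1 := units_sq (t k)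
      have e2 := sq_eq_one_of_pm (hM.1 (φ a') (ψ k))
      linear_combination ((s a : ℤ) * (s a' : ℤ) * (M (φ a') (ψ k) * M (φ a') (ψ k))) * e1 +
        ((s a : ℤ) * (s a' : ℤ)) * e2
    simp only [h1, Finset.sum_const, Finset.card_univ, Fintype.card_fin, nsmul_eq_mul] at h0
    have hn : (n : ℤ) ≠ 0 := by
      have := a.pos
      exact_mod_cast this.ne'
    have h2 : (s a : ℤ) * (s a' : ℤ) ≠ 0 := mul_ne_zero (Units.ne_zero _) (Units.ne_zero _)
    exact (mul_ne_zero hn h2) h0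
  have hψ : Function.Injective ψ := by
    intro a a' haa
    by_contra hne
    have h0 := hX.cols_orth hne
    have h1 : ∀ k, X k a * X k a' = (t a : ℤ) * (t a' : ℤ) := by
      intro k
      rw [hst, hst, haa]
      have e1 := units_sq (s k)
      have e2 := sq_eq_one_of_pm (hM.1 (φ k) (ψ a'))
      linear_combination ((t a : ℤ) * (t a' : ℤ) * (M (φ k) (ψ a') * M (φ k) (ψ a'))) * e1 +
        ((t a : ℤ) * (t a' : ℤ)) * e2
    simp only [h1, Finset.sum_const, Finset.card_univ, Fintype.card_fin, nsmul_eq_mul] at h0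
    have hn : (n : ℤ) ≠ 0 := by
      have := a.pos
      exact_mod_cast this.ne'
    have h2 : (t a : ℤ) * (t a' : ℤ) ≠ 0 := mul_ne_zero (Units.ne_zero _) (Units.ne_zero _)
    exact (mul_ne_zero hn h2) h0
  exact ⟨Equiv.ofBijective φ (Finite.injective_iff_bijective.mp hφ),
    Equiv.ofBijective ψ (Finite.injective_iff_bijective.mp hψ), s, t, fun i j => hst i j⟩

/-! ### The doubling map -/

/-- Sylvester doubling. -/
def dbl {n : ℕ} (H : Matrix (Fin n) (Fin n) ℤ) : Matrix (Fin (2 * n)) (Fin (2 * n)) ℤ :=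
  (syl ⊗ₖ H).submatrix finProdFinEquiv.symm finProdFinEquiv.symm

theorem isHadamard_syl : syl.IsHadamard := by
  refine ⟨?_, ?_, ?_⟩
  · intro i j
    rw [Unitary.mem_iff_eq_one_or_eq_neg_one]
    fin_cases i <;> fin_cases j <;> simp [syl]
  · rw [Matrix.conjTranspose_eq_transpose_of_trivial]
    decide
  · rw [Matrix.conjTranspose_eq_transpose_of_trivial]
    decide

theorem isHad_dbl {n : ℕ} {H : Matrix (Fin n) (Fin n) ℤ} (hH : IsHad H) : IsHad (dbl H) := by
  rw [isHad_iff] at hH ⊢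
  exact (Matrix.isHadamard_submatrix_equiv_iff _ _).mpr (isHadamard_syl.kronecker hH)

theorem SP_submatrix_iff {ι κ ι' κ' : Type} (e : ι' ≃ ι) (f : κ' ≃ κ) (A B : Matrix ι κ ℤ) :
    SP (A.submatrix e f) (B.submatrix e f) ↔ SP A B := by
  constructor
  · rintro ⟨σ, τ, s, t, hst⟩
    refine ⟨(e.symm.trans σ).trans e, (f.symm.trans τ).trans f, fun i => s (e.symm i),
      fun j => t (f.symm j), fun i j => ?_⟩
    have := hst (e.symm i) (f.symm j)
    simpa using this
  · rintro ⟨σ, τ, s, t, hst⟩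
    refine ⟨(e.trans σ).trans e.symm, (f.trans τ).trans f.symm, fun i => s (e i),
      fun j => t (f j), fun i j => ?_⟩
    have := hst (e i) (f j)
    simpa using this

theorem SP_dbl {n : ℕ} {H H' : Matrix (Fin n) (Fin n) ℤ} (hh : SP H H') :
    SP (dbl H) (dbl H') := by
  unfold dbl
  rw [SP_submatrix_iff]
  obtain ⟨σ, τ, s, t, hst⟩ := hh
  refine ⟨Equiv.prodCongr (Equiv.refl _) σ, Equiv.prodCongr (Equiv.refl _) τ,
    fun i => s i.2, fun j => t j.2, fun i j => ?_⟩
  simp only [Matrix.kroneckerMap_apply, Equiv.prodCongr_apply, Prod.map_fst, Prod.map_snd,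
    Equiv.coe_refl, id_eq, hst]
  ring

theorem hadEquiv_equivalence (n : ℕ) :
    Equivalence (fun H H' : {H : Matrix (Fin n) (Fin n) ℤ // IsHad H} => HadEquiv H.1 H'.1) := by
  refine ⟨fun H => ?_, fun {H H'} h => ?_, fun {H H' H''} h h' => ?_⟩
  · exact (hadEquiv_iff_SP _ _).mpr (SP.refl _)
  · exact (hadEquiv_iff_SP _ _).mpr ((hadEquiv_iff_SP _ _).mp h).symm
  · exact (hadEquiv_iff_SP _ _).mpr
      (((hadEquiv_iff_SP _ _).mp h).trans ((hadEquiv_iff_SP _ _).mp h'))

instance finite_had (n : ℕ) : Finite {H : Matrix (Fin n) (Fin n) ℤ // IsHad H} := by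
  have : Function.Injective (fun (H : {H : Matrix (Fin n) (Fin n) ℤ // IsHad H})
      (i j : Fin n) => decide (H.1 i j = 1)) := by
    intro H H' hh
    apply Subtype.ext
    ext i j
    have h1 := congr_fun (congr_fun hh i) j
    simp only [decide_eq_decide] at h1
    rcases H.2.1 i j with h | h <;> rcases H'.2.1 i j with h' | h'
    · rw [h, h']
    · rw [h, h'] at h1; norm_num at h1
    · rw [h, h'] at h1; norm_num at h1
    · rw [h, h']
  exact Finite.of_injective _ this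

/-- For every `n`, the number of Hadamard equivalence classes of order `n` is at most the number
of Hadamard equivalence classes of order `2 * n`. -/
theorem main_theorem (n : ℕ) : h n ≤ h (2 * n) := by
  unfold h
  refine Nat.card_le_card_of_injective
    (Quot.map (fun H : {H : Matrix (Fin n) (Fin n) ℤ // IsHad H} =>
      (⟨dbl H.1, isHad_dbl H.2⟩ : {H : Matrix (Fin (2 * n)) (Fin (2 * n)) ℤ // IsHad H}))
      (fun H H' hh => ?_)) ?_
  · exact (hadEquiv_iff_SP _ _).mpr (SP_dbl ((hadEquiv_iff_SP _ _).mp hh))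
  · intro x y
    induction x using Quot.ind with
    | mk H =>
    induction y using Quot.ind with
    | mk H' =>
    intro hxy
    have h1 := ((hadEquiv_equivalence (2 * n)).quot_mk_eq_iff _ _).mp hxy
    have h2 : SP (syl ⊗ₖ H.1) (syl ⊗ₖ H'.1) :=
      (SP_submatrix_iff _ _ _ _).mp ((hadEquiv_iff_SP _ _).mp h1)
    have h3 := SP_of_SP_kronecker H.1 H'.1 H.2 H'.2 h2
    exact Quot.sound ((hadEquiv_iff_SP _ _).mpr h3.symm)

end Pool.Agent.Lib.MP_ced6ff_co
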